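import Mathlib
import Pool.Agent.V11306.AsdD

/-!
# The congruences of MP_fb382b (Q1) fail at `p = 5`

We prove the negated form of Q1: for `k = 6`, `r = 1`, the elliptic curve
`C : y² + xy = x³ + x² - 2x - 7` (conductor 121, `j(C) = -121`), the good prime `p = 5`, `n = 1` and
`l = 5 = k - 1`, the left-hand side is not divisible by `5 ^ 15`, where
`15 = (k-1) l - (k-3) k / 2 - r`.
-/

set_option autoImplicit false

namespace Pool.Agent.Results.MP_fb382b_nt.FailsAtFive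

open Finset

/-- The `q`-expansion of the Eisenstein series `E_k = 1 - (2k / B_k) ∑_{n ≥ 1} σ_{k-1}(n) q^n`. -/
noncomputable def eis (k : ℕ) : PowerSeries ℚ :=
  PowerSeries.mk fun n => if n = 0 then 1 else
    -(2 * (k : ℚ) / bernoulli k) * ((ArithmeticFunction.sigma (k - 1) n : ℕ) : ℚ)

/-- The `q`-expansion of the discriminant form `Δ = (E₄³ - E₆²) / 1728`. -/
noncomputable def delta : PowerSeries ℚ :=
  PowerSeries.C (1 / 1728 : ℚ) * (eis 4 ^ 3 - eis 6 ^ 2)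

/-- The `q`-expansion of the modular invariant `j = E₄³ / Δ`, a Laurent series. -/
noncomputable def jq : LaurentSeries ℚ :=
  (HahnSeries.ofPowerSeries ℤ ℚ (eis 4)) ^ 3 / HahnSeries.ofPowerSeries ℤ ℚ delta

/-- The `q`-expansion of `F^{(r)}_{k,C} = E_k / (j - j(C))^r`, where `j₀ = j(C)`. -/
noncomputable def F (k r : ℕ) (j₀ : ℚ) : LaurentSeries ℚ :=
  HahnSeries.ofPowerSeries ℤ ℚ (eis k) / (jq - HahnSeries.C j₀) ^ r

/-- The coefficient `a_m(f)` of a Laurent series for rational `m`; it is `0` if `m` is not an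
integer. -/
noncomputable def coef (f : LaurentSeries ℚ) (m : ℚ) : ℚ :=
  if m.den = 1 then f.coeff m.num else 0

/-- `W` is an integral Weierstrass model of the curve `C` with good reduction at `p`. -/
def IsGoodModel (W : WeierstrassCurve ℤ) (C : WeierstrassCurve ℚ) (p : ℕ) : Prop :=
  (∃ u : WeierstrassCurve.VariableChange ℚ, u • C = W.map (Int.castRingHom ℚ)) ∧
    ¬ ((p : ℤ) ∣ W.Δ)

/-- The number of affine points of `W` modulo `p`. -/
noncomputable def numAffine (W : WeierstrassCurve ℤ) (p : ℕ) : ℕ :=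
  Nat.card {P : ZMod p × ZMod p //
    (W.map (Int.castRingHom (ZMod p))).toAffine.Equation P.1 P.2}

/-- `a_p = p + 1 - #C(𝔽_p)`; the points of `C(𝔽_p)` are the affine ones and the point at
infinity. -/
noncomputable def ap (W : WeierstrassCurve ℤ) (p : ℕ) : ℤ :=
  (p : ℤ) + 1 - ((numAffine W p : ℤ) + 1)

/-- The integers `c 0, …, c (k - 1)` are the coefficients of the polynomial
`∏_{i=0}^{k-2} (X - α^{k-2-i} β^i) = ∑_{i=0}^{k-1} c_i X^{k-1-i}`, where `α, β` are the roots of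
`X² - a X + p`. -/
def IsFrobCoeffs (a : ℤ) (p k : ℕ) (c : ℕ → ℤ) : Prop :=
  ∃ α β : ℂ, α + β = (a : ℂ) ∧ α * β = (p : ℂ) ∧
    ∏ i ∈ range (k - 1),
        ((Polynomial.X : Polynomial ℂ) - Polynomial.C (α ^ (k - 2 - i) * β ^ i)) =
      ∑ i ∈ range k, Polynomial.C ((c i : ℤ) : ℂ) * Polynomial.X ^ (k - 1 - i)

/-- The left-hand side of the congruence in Q1. -/
noncomputable def lhs (k r p : ℕ) (j₀ : ℚ) (c : ℕ → ℤ) (n l : ℕ) : ℚ :=
  ∑ i ∈ range k, (c i : ℚ) * coef (F k r j₀) ((n : ℚ) * (p : ℚ) ^ ((l : ℤ) - (i : ℤ)))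

/-- `x ≡ 0 (mod p^e)` for rational `x`, that is `v_p(x) ≥ e`. -/
def CongZero (p : ℕ) (e : ℤ) (x : ℚ) : Prop := x = 0 ∨ e ≤ padicValRat p x

open Pool.Agent.V11306.Asd

/-- the ring homomorphism `ℤ⟦q⟧ → ℚ⸨q⸩` -/
noncomputable def ψ : PowerSeries ℤ →+* LaurentSeries ℚ :=
  (HahnSeries.ofPowerSeries ℤ ℚ).comp (PowerSeries.map (Int.castRingHom ℚ))

lemma coeff_ψ (f : PowerSeries ℤ) (n : ℕ) :
    (ψ f).coeff (n : ℤ) = ((PowerSeries.coeff n f : ℤ) : ℚ) := by
  rw [ψ, RingHom.comp_apply]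
  have h := LaurentSeries.coeff_coe_powerSeries (R := ℚ) (PowerSeries.map (Int.castRingHom ℚ) f) n
  rw [PowerSeries.coeff_map] at h
  exact h

lemma bern4 : bernoulli 4 = -1 / 30 := by
  rw [bernoulli_eq_bernoulli'_of_ne_one (by norm_num), bernoulli'_four]

lemma bern6 : bernoulli 6 = 1 / 42 := by
  have h5 : bernoulli' 5 = 0 := bernoulli'_eq_zero_of_odd (by decide) (by norm_num)
  rw [bernoulli_eq_bernoulli'_of_ne_one (by norm_num), bernoulli'_def]
  norm_num [Finset.sum_range_succ, bernoulli'_zero, bernoulli'_one, bernoulli'_two,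
    bernoulli'_three, bernoulli'_four, h5, Nat.choose]

lemma eis4 : eis 4 = PowerSeries.map (Int.castRingHom ℚ) e4z := by
  ext n
  rw [eis, PowerSeries.coeff_mk, PowerSeries.coeff_map, coeff_e4z, bern4]
  rcases Nat.eq_zero_or_pos n with h | h
  · subst h; simp
  · rw [if_neg h.ne', if_neg h.ne']
    simp only [zero_add, eq_intCast]
    push_cast
    norm_num

lemma eis6 : eis 6 = PowerSeries.map (Int.castRingHom ℚ) e6z := by
  ext n
  rw [eis, PowerSeries.coeff_mk, PowerSeries.coeff_map, coeff_e6z, bern6]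
  rcases Nat.eq_zero_or_pos n with h | h
  · subst h; simp
  · rw [if_neg h.ne', if_neg h.ne']
    simp only [zero_sub, eq_intCast]
    push_cast
    norm_num

lemma delta_eq : delta = PowerSeries.map (Int.castRingHom ℚ) dz := by
  have h := congrArg (PowerSeries.map (Int.castRingHom ℚ)) dz_spec
  rw [map_sub, map_pow, map_pow, ← eis4, ← eis6, map_mul, map_ofNat] at h
  rw [delta, ← h, ← mul_assoc]
  have h2 : (PowerSeries.C (1 / 1728 : ℚ)) * (1728 : PowerSeries ℚ) = 1 := by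
    have : (1728 : PowerSeries ℚ) = PowerSeries.C (1728 : ℚ) := by rw [map_ofNat]
    rw [this, ← map_mul]
    norm_num
  rw [h2, one_mul]

lemma coeff_one_mul (f g : PowerSeries ℤ) (hf : PowerSeries.coeff 0 f = 0)
    (hg : PowerSeries.coeff 0 g = 0) : PowerSeries.coeff 1 (f * g) = 0 := by
  rw [PowerSeries.coeff_mul, Finset.Nat.antidiagonal_succ]
  simp [hf, hg]

lemma coeff_zero_Sg (e : ℕ) : PowerSeries.coeff 0 (Sg e) = 0 := by
  rw [Sg, PowerSeries.coeff_mk, ArithmeticFunction.map_zero]; rfl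

lemma coeff_one_dz : PowerSeries.coeff 1 dz = 1 := by
  have h100 : (100 : PowerSeries ℤ) = PowerSeries.C 100 := by rw [map_ofNat]
  have h8000 : (8000 : PowerSeries ℤ) = PowerSeries.C 8000 := by rw [map_ofNat]
  have h147 : (147 : PowerSeries ℤ) = PowerSeries.C 147 := by rw [map_ofNat]
  have h2 : ∀ e, PowerSeries.coeff 1 (Sg e ^ 2) = 0 := by
    intro e
    rw [pow_two]
    exact coeff_one_mul _ _ (coeff_zero_Sg e) (coeff_zero_Sg e)
  have h3 : ∀ e, PowerSeries.coeff 1 (Sg e ^ 3) = 0 := by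
    intro e
    rw [pow_succ]
    refine coeff_one_mul _ _ ?_ (coeff_zero_Sg e)
    rw [pow_two, PowerSeries.coeff_mul, Finset.Nat.antidiagonal_zero, Finset.sum_singleton,
      coeff_zero_Sg e, mul_zero]
  rw [dz, h100, h8000, h147, map_sub, map_add, map_add, PowerSeries.coeff_C_mul,
    PowerSeries.coeff_C_mul, PowerSeries.coeff_C_mul, h2, h2, h3, uz, PowerSeries.coeff_mk]
  simp

/-- The integral series with `F · (E₄³ + 121 Δ) = E₆ Δ`. -/
noncomputable def Fz : PowerSeries ℤ :=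
  (e6z * dz) * PowerSeries.invOfUnit (e4z ^ 3 + 121 * dz) 1

lemma Fz_spec : (e4z ^ 3 + 121 * dz) * Fz = e6z * dz := by
  have h := PowerSeries.mul_invOfUnit (e4z ^ 3 + 121 * dz) 1 (by rw [const_den]; rfl)
  rw [Fz]
  calc _ = (e6z * dz) * ((e4z ^ 3 + 121 * dz) *
      PowerSeries.invOfUnit (e4z ^ 3 + 121 * dz) 1) := by ring
    _ = e6z * dz := by rw [h, mul_one]

lemma F_eq : F 6 1 (-121) = ψ Fz := by
  have hd : HahnSeries.ofPowerSeries ℤ ℚ delta = ψ dz := by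
    rw [delta_eq]; rfl
  have h4 : HahnSeries.ofPowerSeries ℤ ℚ (eis 4) = ψ e4z := by
    rw [eis4]; rfl
  have h6 : HahnSeries.ofPowerSeries ℤ ℚ (eis 6) = ψ e6z := by
    rw [eis6]; rfl
  have hD : ψ dz ≠ 0 := by
    intro h
    have h1 := coeff_ψ dz 1
    rw [h, coeff_one_dz, HahnSeries.coeff_zero] at h1
    norm_num at h1
  have hA : ψ (e4z ^ 3 + 121 * dz) ≠ 0 := by
    intro h
    have h1 := coeff_ψ (e4z ^ 3 + 121 * dz) 0
    rw [h, HahnSeries.coeff_zero, PowerSeries.coeff_zero_eq_constantCoeff_apply, const_den] at h1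
    norm_num at h1
  have hs := congrArg ψ Fz_spec
  rw [map_mul, map_mul ψ e6z] at hs
  have hC : (HahnSeries.C (-121 : ℚ) : LaurentSeries ℚ) = -121 := by
    rw [map_neg, map_ofNat]
  rw [F, jq, hd, h4, h6, hC, pow_one]
  have hA' : ψ (e4z ^ 3 + 121 * dz) = ψ e4z ^ 3 + 121 * ψ dz := by
    rw [map_add, map_pow, map_mul, map_ofNat]
  rw [hA'] at hs hA
  have e1 : ψ e4z ^ 3 / ψ dz - -121 = (ψ e4z ^ 3 + 121 * ψ dz) / ψ dz := by
    field_simp
    ring
  rw [e1, div_div_eq_mul_div, div_eq_iff hA, ← hs]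
  ring

lemma coef_natCast (f : LaurentSeries ℚ) (m : ℕ) : coef f (m : ℚ) = f.coeff (m : ℤ) := by
  rw [coef, Rat.den_natCast, if_pos rfl, Rat.num_natCast]

/-- the curve `y² + xy = x³ + x² - 2x - 7` -/
def W : WeierstrassCurve ℤ := ⟨1, 1, 0, -2, -7⟩

lemma W_Δ : W.Δ = -14641 := by
  simp [W, WeierstrassCurve.Δ, WeierstrassCurve.b₂, WeierstrassCurve.b₄, WeierstrassCurve.b₆,
    WeierstrassCurve.b₈]

lemma W_c4 : W.c₄ = 121 := by
  simp [W, WeierstrassCurve.c₄, WeierstrassCurve.b₂, WeierstrassCurve.b₄]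

/-- the rational curve -/
noncomputable def C : WeierstrassCurve ℚ := W.map (Int.castRingHom ℚ)

lemma C_Δ : C.Δ = -14641 := by
  rw [C, WeierstrassCurve.map_Δ, W_Δ]; norm_num

instance : C.IsElliptic := ⟨by rw [C_Δ]; exact (by norm_num : (-14641 : ℚ) ≠ 0).isUnit⟩

lemma C_j : C.j = -121 := by
  rw [WeierstrassCurve.j, Units.val_inv_eq_inv_val, WeierstrassCurve.coe_Δ', C_Δ, C,
    WeierstrassCurve.map_c₄, W_c4]
  norm_num

lemma numAffine_W : numAffine W 5 = 4 := by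
  have e : ∀ P : ZMod 5 × ZMod 5,
      (W.map (Int.castRingHom (ZMod 5))).toAffine.Equation P.1 P.2 ↔
      P.2 ^ 2 + P.1 * P.2 = P.1 ^ 3 + P.1 ^ 2 + 3 * P.1 + 3 := by
    intro P
    rw [WeierstrassCurve.Affine.equation_iff]
    simp only [WeierstrassCurve.toAffine, WeierstrassCurve.map, W]
    have h2 : (Int.castRingHom (ZMod 5)) (-2) = 3 := by decide
    have h7 : (Int.castRingHom (ZMod 5)) (-7) = 3 := by decide
    rw [h2, h7, map_one, map_zero]
    constructor <;> intro h <;> linear_combination h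
  rw [numAffine]
  have e2 : {P : ZMod 5 × ZMod 5 // (W.map (Int.castRingHom (ZMod 5))).toAffine.Equation P.1 P.2}
      ≃ {P : ZMod 5 × ZMod 5 // P.2 ^ 2 + P.1 * P.2 = P.1 ^ 3 + P.1 ^ 2 + 3 * P.1 + 3} :=
    Equiv.subtypeEquivRight e
  rw [Nat.card_congr e2, Nat.card_eq_fintype_card]
  decide

lemma ap_W : ap W 5 = 1 := by
  rw [ap, numAffine_W]; norm_num

/-- the coefficients -/
def c : ℕ → ℤ
  | 0 => 1
  | 1 => -11
  | 2 => -495
  | 3 => 12375
  | 4 => 171875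
  | 5 => -9765625
  | _ => 0

lemma frob : IsFrobCoeffs 1 5 6 c := by
  obtain ⟨α, hα⟩ : ∃ α : ℂ, α ^ 2 - α + 5 = 0 := by
    obtain ⟨s, hs⟩ := IsAlgClosed.exists_pow_nat_eq (-19 : ℂ) (n := 2) (by norm_num)
    exact ⟨(1 + s) / 2, by linear_combination (1 / 4 : ℂ) * hs⟩
  refine ⟨α, 1 - α, by push_cast; ring, by push_cast; linear_combination -hα, ?_⟩
  have e0 : α ^ 4 * (1 - α) ^ 0 = -9 * α + 20 := by
    linear_combination (α ^ 2 + α - 4) * hα
  have e1 : α ^ 3 * (1 - α) ^ 1 = 5 * α - 25 := by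
    linear_combination (-α ^ 2 + 5) * hα
  have e2 : α ^ 2 * (1 - α) ^ 2 = 25 := by
    linear_combination (α ^ 2 - α - 5) * hα
  have e3 : α ^ 1 * (1 - α) ^ 3 = -5 * α - 20 := by
    linear_combination (-α ^ 2 + 2 * α + 4) * hα
  have e4 : α ^ 0 * (1 - α) ^ 4 = 9 * α + 11 := by
    linear_combination (α ^ 2 - 3 * α - 2) * hα
  simp only [Finset.prod_range_succ, Finset.prod_range_zero, Finset.sum_range_succ,
    Finset.sum_range_zero, show 6 - 1 = 5 by norm_num, show 6 - 2 - 0 = 4 by norm_num,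
    show 6 - 2 - 1 = 3 by norm_num, show 6 - 2 - 2 = 2 by norm_num,
    show 6 - 2 - 3 = 1 by norm_num, show 6 - 2 - 4 = 0 by norm_num, e0, e1, e2, e3, e4, c]
  have hα' : (Polynomial.C α : Polynomial ℂ) ^ 2 - Polynomial.C α + 5 = 0 := by
    have := congrArg (Polynomial.C : ℂ →+* Polynomial ℂ) hα
    rw [map_add, map_sub, map_pow, map_zero, map_ofNat] at this
    exact this
  simp only [map_add, map_sub, map_mul, map_neg, map_ofNat, Int.cast_neg, Int.cast_ofNat,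
    Int.cast_one, map_one]
  generalize (Polynomial.C α : Polynomial ℂ) = A at hα'
  generalize (Polynomial.X : Polynomial ℂ) = X
  have f1 : (X - (-9 * A + 20)) * (X - (9 * A + 11)) = X ^ 2 - 31 * X + 625 := by
    linear_combination (-81 : Polynomial ℂ) * hα'
  have f2 : (X - (5 * A - 25)) * (X - (-5 * A - 20)) = X ^ 2 + 45 * X + 625 := by
    linear_combination (-25 : Polynomial ℂ) * hα'
  calc _ = ((X - (-9 * A + 20)) * (X - (9 * A + 11))) * ((X - (5 * A - 25)) *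
      (X - (-5 * A - 20))) * (X - 25) := by ring
    _ = _ := by rw [f1, f2]; norm_num; ring

lemma lhs_eq : lhs 6 1 5 (-121) c 1 5 =
    ((PowerSeries.coeff 3125 Fz - 11 * PowerSeries.coeff 625 Fz -
      495 * PowerSeries.coeff 125 Fz + 12375 * PowerSeries.coeff 25 Fz +
      171875 * PowerSeries.coeff 5 Fz - 9765625 * PowerSeries.coeff 1 Fz : ℤ) : ℚ) := by
  have h : ∀ (i m : ℕ), i ≤ 5 → m = 5 ^ (5 - i) →
      coef (F 6 1 (-121)) (((1 : ℕ) : ℚ) * ((5 : ℕ) : ℚ) ^ (((5 : ℕ) : ℤ) - (i : ℤ))) =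
        ((PowerSeries.coeff m Fz : ℤ) : ℚ) := by
    intro i m hi hm
    have e : ((1 : ℕ) : ℚ) * ((5 : ℕ) : ℚ) ^ (((5 : ℕ) : ℤ) - (i : ℤ)) = ((m : ℕ) : ℚ) := by
      rw [hm, ← Nat.cast_sub hi, zpow_natCast, Nat.cast_one, one_mul]
      push_cast; rfl
    rw [e, coef_natCast, F_eq, coeff_ψ]
  rw [lhs]
  simp only [Finset.sum_range_succ, Finset.sum_range_zero, zero_add]
  rw [h 0 3125 (by norm_num) (by norm_num), h 1 625 (by norm_num) (by norm_num),
    h 2 125 (by norm_num) (by norm_num), h 3 25 (by norm_num) (by norm_num),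
    h 4 5 (by norm_num) (by norm_num), h 5 1 (by norm_num) (by norm_num)]
  simp only [c]
  push_cast
  ring

lemma padic_121 : padicValRat 5 (-121) = 0 := by
  have h : (-121 : ℚ) = ((-121 : ℤ) : ℚ) := by norm_num
  rw [h, padicValRat.of_int]
  have : padicValInt 5 (-121) = 0 := padicValInt.eq_zero_of_not_dvd (by norm_num)
  rw [this]; rfl

lemma padic_1849 : padicValRat 5 (-121 - 1728) = 0 := by
  have h : (-121 - 1728 : ℚ) = ((-1849 : ℤ) : ℚ) := by norm_num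
  rw [h, padicValRat.of_int]
  have : padicValInt 5 (-1849) = 0 := padicValInt.eq_zero_of_not_dvd (by norm_num)
  rw [this]; rfl

lemma not_congZero (x : ℤ) (hx : ¬ ((5 : ℤ) ^ 15 ∣ x)) : ¬ CongZero 5 15 (x : ℚ) := by
  have : Fact (Nat.Prime 5) := ⟨by norm_num⟩
  rintro (h | h)
  · apply hx
    have : x = 0 := by exact_mod_cast h
    rw [this]; exact dvd_zero _
  · apply hx
    rw [padicValRat.of_int] at h
    have h2 : 15 ≤ padicValInt 5 x := by exact_mod_cast h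
    have h3 := (padicValInt_dvd_iff (p := 5) 15 x).mpr (Or.inr h2)
    exact_mod_cast h3

/-- **The congruence of Q1 fails** for `k = 6`, `r = 1`, a curve `C` with good reduction at
`p = 5` and `l = 5 = k - 1`. -/
theorem result :
    ∃ (k r : ℕ) (C : WeierstrassCurve ℚ) (_ : C.IsElliptic) (p : ℕ) (W : WeierstrassCurve ℤ)
      (c : ℕ → ℤ) (n l : ℕ),
      (k = 4 ∨ k = 6 ∨ k = 8 ∨ k = 10 ∨ k = 14) ∧ 1 ≤ r ∧ r ≤ k - 1 ∧
      C.j ≠ 0 ∧ C.j ≠ 1728 ∧ p.Prime ∧ 5 ≤ p ∧ IsGoodModel W C p ∧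
      padicValRat p C.j = 0 ∧ padicValRat p (C.j - 1728) = 0 ∧
      IsFrobCoeffs (ap W p) p k c ∧ 1 ≤ n ∧ k - 1 ≤ l ∧
      ¬ CongZero p (((k : ℤ) - 1) * l - ((k : ℤ) - 3) * k / 2 - r) (lhs k r p C.j c n l) := by
  refine ⟨6, 1, C, inferInstance, 5, W, c, 1, 5, Or.inr (Or.inl rfl), le_refl _, by norm_num,
    ?_, ?_, by norm_num, le_refl _, ⟨⟨1, ?_⟩, ?_⟩, ?_, ?_, ?_, le_refl _, by norm_num, ?_⟩
  · rw [C_j]; norm_num
  · rw [C_j]; norm_num
  · rw [one_smul]; rfl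
  · rw [W_Δ]; norm_num
  · rw [C_j]; exact padic_121
  · rw [C_j]; exact padic_1849
  · rw [ap_W]; exact frob
  · rw [C_j, lhs_eq]
    have h := not_congZero _ (key Fz Fz_spec)
    have e : (((6 : ℕ) : ℤ) - 1) * ((5 : ℕ) : ℤ) - (((6 : ℕ) : ℤ) - 3) * ((6 : ℕ) : ℤ) / 2 -
        ((1 : ℕ) : ℤ) = 15 := by norm_num
    rw [e]
    exact h

end Pool.Agent.Results.MP_fb382b_nt.FailsAtFive
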